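import Pool.Agent.Lib_helper57.PX.IsoC
import Pool.Agent.Lib_helper10.LEN.One

/-!
# MP_5c38ab_lc: the best possible lengths of the proofs of finite consistency and of finite
reflection, in oracles above every oracle

For every oracle `R`, every `β(n) → ∞` and all monotone `f`, `g` with `n ≤ f n ≤ g n`, and
`g n ^ k ≤ 2 ^ n` for every `k` and all large `n`, there is an oracle `O` with `R ∈ P^O` relative to
which the best possible length of proofs is, up to constants, `f` for finite consistency and `g` for
finite `Σ^b_1` reflection: some `S` has, for all `T`, proofs of `Con_T(n)` of length at most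
`33 f(n) + c_T` and of `Σ^b_1RFN_T(n)` of length at most `33 g(n) + c_T` for all `n`, but for every
`S` there are `T` and `T'` such that for infinitely many `n` all `S`-proofs of `Con_T(n)` are longer
than `f(n / 4096)`, and for infinitely many `n` all `S`-proofs of `Σ^b_1RFN_T'(n)` are longer than
`g(n / 4096)`.  If `f = g`, there is such an oracle `O` relative to which, moreover, the polynomial
hierarchy is infinite and there are trapdoor permutations that are secure at all large lengths `n`
against all nonuniform adversaries with time and advice `2 ^ (n / β n)`.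

For `f n = g n = n` the negated form of Q1 holds relative to `O`, with proofs of linear length: no
relativizing proof, not even from an infinite hierarchy and trapdoor permutations, gives a
superlinear lower bound for the sentences of Q1.

The definitions are in `Lib_helper57/PX` (`Mach`, `InP`, `InNP`, `InFP`, `Join`, `Arith`, `PH`,
`TDP`) and in `Lib_helper10/LEN/LenDef2` (`LengthsConRFN`).
-/

set_option autoImplicit false

namespace Pool.Agent.Results.MP_5c38ab_lc.AboveEveryOracleSpectrum

open Pool.Agent.PX

theorem result (R : Lang) (β : ℕ → ℕ) (hβ : Filter.Tendsto β Filter.atTop Filter.atTop)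
    (f g : ℕ → ℕ) (hf : Monotone f) (hg : Monotone g) (hnf : ∀ n, n ≤ f n)
    (hfg : ∀ n, f n ≤ g n) (hsub : ∀ k, ∀ᶠ n in Filter.atTop, g n ^ k ≤ 2 ^ n) :
    ∃ O : Lang, InP O R ∧
      LengthsConRFN O (fun n => f (n / 4096)) (fun n => 33 * f n)
        (fun n => g (n / 4096)) (fun n => 33 * g n) ∧
      (f = g → InfinitePH O ∧
        ∃ G F K, TrapdoorPermutations O G F K ∧ Secure O G F (fun n => 2 ^ (n / β n))) := by
  by_cases h : f = g
  · subst h
    obtain ⟨O, h1, h2, h3, h4, h5, G, F, K, h6, h7⟩ :=
      Pool.Agent.LIN.spectrumPH R β hβ hf hnf hsub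
    exact ⟨O, (inP_iff O R).1 h1, lengths_one ((lengths_iff O _ _).1 ⟨h2, h3, h4⟩)
      (fun n => Nat.mul_le_mul_right _ (by norm_num)), fun _ => ⟨(infinitePH_iff O).1 h5,
      G, F, K, (tdp_iff O G F K).1 h6, (secure_iff O G F _).1 h7⟩⟩
  · obtain ⟨O, h1, h2, h3, h4⟩ := Pool.Agent.LEN.spectrum2O R hf hg hnf hfg hsub
    exact ⟨O, (inP_iff O R).1 h1, (lengths2_iff _ _ _ _ _).1 ⟨h2, h3, h4⟩, fun h' => absurd h' h⟩

end Pool.Agent.Results.MP_5c38ab_lc.AboveEveryOracleSpectrum
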