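import Pool.Agent.Lib_helper78.PLS.Random
import Pool.Agent.Lib_helper57.PX.IsoB

/-!
# MP_5c38ab_lc: Q1 holds relative to a random oracle

Let `A` be an oracle and let `R` be a random oracle: the bits `R x`, `x` a bit string, are independent
fair coins.  With probability `1`, relative to `A ⊕ R` Q1 is true, and even its consistency version
is true, with exponential lower bounds: for every base theory `B` and every consistent theory `S` that
extends `B` and has axioms decidable in polynomial time with the oracle there is such a theory `T` for
which neither the sentences `Σ^b_1RFN_T(n)` nor the sentences `Con_T(n)` have `S`-proofs of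
polynomial length; for infinitely many `n` all their `S`-proofs have length greater than
`2 ^ (n ^ (1/7) - 1)`.

The definitions are in `Lib_helper57/PX` (`Mach`, `Join`, `Arith`, `QExp`).
-/

set_option autoImplicit false

namespace Pool.Agent.Results.MP_5c38ab_lc.RelativeToRandomOracle

open Pool.Agent.PX MeasureTheory

theorem result (A : Lang) (μ : Measure Bool) [IsProbabilityMeasure μ] (hμ : μ {true} = 2⁻¹) :
    ∀ᵐ R ∂(Measure.infinitePi fun _ : List Bool => μ), BothTrueExp (join A R) := by
  filter_upwards [Pool.Agent.PLS.random A μ hμ] with R hR
  rw [← join_eq]
  exact (bothTrueExp_iff _).1 hR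

end Pool.Agent.Results.MP_5c38ab_lc.RelativeToRandomOracle
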