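import Pool.Agent.Lib_helper94.TCA.Final
import Pool.Agent.Lib_helper94.TCA.Defs
import Pool.Agent.Lib_helper78.TA.Defs
import Pool.Agent.Lib_helper57.PX.AffThm
import Pool.Agent.Lib_helper57.PX.IsoC

/-!
# MP_5c38ab_lc: each case for Q1 and its consistency version occurs, with strong trapdoor
permutations, above every oracle in oracles that contain their own multilinear extensions

Let CON be the statement that for every `S` in the class there is `T` in the class such that the
`S`-proofs of the sentences `Con_T(n)` are not polynomially bounded, and Q1 the same statement with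
`Σ^b_1RFN_T(n)`.  CON implies Q1 and Q1 implies `NP ≠ coNP`, so that there are three cases.

Let `pt u` code a point of a space `GF(2^k)^n`, `n ≤ |u|`, and a linear functional of `GF(2^k)` over
`GF(2)` (any coding).  For every oracle `R` and every `β(n) → ∞` there are five oracles `O` that
contain their own multilinear extensions (`O (01u)` is the value of the functional at the value of
the multilinear extension of `O`, restricted to `{0,1}^n`, at the point), with `R ∈ P^O`, such that,
relative to the first three of them, there are trapdoor permutations that are secure at all large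
lengths `n` against all nonuniform adversaries with time and advice `2 ^ (n / β n)`, but

* Q1 is false (so CON is false): some `S` has proofs of polynomial length, computable in polynomial
  time, of the sentences `Σ^b_1RFN_T(n)` of all `T`; although `NP ≠ coNP`;
* Q1 and CON are true;
* Q1 is true and CON is false;

and relative to the last two of them

* Q1 and CON are true, with exponential lower bounds;
* Q1 is true, with exponential lower bounds, and CON is false.

The definitions are in `Lib_helper57/PX` (`Mach`, `InP`, `InNP`, `InFP`, `Arith`, `QFalse`, `QCon`,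
`QExp`, `TDP`, `Ml`), `Lib_helper78/TA/Defs.lean` (`SelfExtended`) and `Lib_helper94/TCA/Defs.lean`
(`BothTrue`, `Q1TrueExp`).
-/

set_option autoImplicit false

namespace Pool.Agent.Results.MP_5c38ab_lc.ThreeCasesAffineTrapdoor

open Pool.Agent.PX Pool.Agent.TA Pool.Agent.TCA

theorem result
    (pt : List Bool → (n : ℕ) × (k : ℕ) × (Fin n → GaloisField 2 k) ×
      (GaloisField 2 k →ₗ[ZMod 2] ZMod 2)) (hpt : ∀ u, (pt u).1 ≤ u.length)
    (R : Lang) (β : ℕ → ℕ) (hβ : Filter.Tendsto β Filter.atTop Filter.atTop) :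
    (∃ O : Lang, InP O R ∧ SelfExtended pt O ∧ Q1False O ∧
      (∃ L, InNP O L ∧ ¬ InNP O (fun x => !L x)) ∧
      ∃ G F K, TrapdoorPermutations O G F K ∧ Secure O G F (fun n => 2 ^ (n / β n))) ∧
    (∃ O : Lang, InP O R ∧ SelfExtended pt O ∧ BothTrue O ∧
      ∃ G F K, TrapdoorPermutations O G F K ∧ Secure O G F (fun n => 2 ^ (n / β n))) ∧
    (∃ O : Lang, InP O R ∧ SelfExtended pt O ∧ Q1True O ∧ ConFalse O ∧
      ∃ G F K, TrapdoorPermutations O G F K ∧ Secure O G F (fun n => 2 ^ (n / β n))) ∧
    (∃ O : Lang, InP O R ∧ SelfExtended pt O ∧ BothTrueExp O) ∧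
    ∃ O : Lang, InP O R ∧ SelfExtended pt O ∧ Q1TrueExp O ∧ ConFalse O := by
  refine ⟨?_, ?_, ?_, ?_, ?_⟩
  · obtain ⟨O, h1, h2, h3, ⟨L, h4, h5⟩, G, F, K, h6, h7⟩ := affOld pt hpt R β hβ
    exact ⟨O, (inP_iff O R).1 h1, h2, (q1False_iff O).1 h3,
      ⟨L, (inNP_iff O L).1 h4, fun h => h5 ((inNP_iff O _).2 h)⟩, G, F, K, (tdp_iff O G F K).1 h6,
      (secure_iff O G F _).1 h7⟩
  · obtain ⟨O, h1, h2, h3, h4⟩ := affBoth pt hpt R β hβ
    exact ⟨O, (inP_iff O R).1 h1, h2, (bothTrue_iff O).1 h3, h4⟩
  · obtain ⟨O, h1, h2, h3, h4, h5⟩ := affMixed pt hpt R β hβ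
    exact ⟨O, (inP_iff O R).1 h1, h2, (q1True_iff O).1 h3, (conFalse_iff O).1 h4, h5⟩
  · obtain ⟨O, h1, h2, h3⟩ := affExp pt hpt R
    exact ⟨O, (inP_iff O R).1 h1, h2, (bothTrueExp_iff O).1 h3⟩
  · obtain ⟨O, h1, h2, h3, h4⟩ := affMixedExp pt hpt R
    exact ⟨O, (inP_iff O R).1 h1, h2, (q1TrueExp_iff O).1 h3, (conFalse_iff O).1 h4⟩

end Pool.Agent.Results.MP_5c38ab_lc.ThreeCasesAffineTrapdoor
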