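import Pool.Agent.Lib_helper94.FSS.Main
import Pool.Agent.Lib_helper57.PX.IsoC

/-!
# MP_5c38ab_lc: above every oracle, each possible case for Q1 and its consistency version occurs,
by adding few strings, which keep an infinite hierarchy and all trapdoor permutations

Let CON be the statement that for every `S` in the class there is `T` in the class such that the
`S`-proofs of the sentences `Con_T(n)` are not polynomially bounded, and Q1 the same statement with
`Σ^b_1RFN_T(n)`.  CON implies Q1, so that there are three cases.

For every oracle `R` and every function `α` with limit infinity there are three sets `W`, each with at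
most `α n` elements of length at most `n`, for all `n`, such that relative to `R ⊕ W`

* Q1 is false (so CON is false): some `S` has proofs of polynomial length, computable in polynomial
  time, of the sentences `Σ^b_1RFN_T(n)` of all `T`;
* Q1 and CON are true, with exponential lower bounds;
* Q1 is true and CON is false.

If the polynomial hierarchy is infinite relative to `R` then it is infinite relative to each `R ⊕ W`,
and the trapdoor permutations relative to `R` remain trapdoor permutations relative to each `R ⊕ W`,
with the same security up to polynomials.

Above every oracle there is an oracle `R` relative to which the polynomial hierarchy is infinite and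
there are trapdoor permutations secure against all powers of `2 ^ (n / β n) + n + 2`.

The definitions are in `Lib_helper57/PX` (`Mach`, `InP`, `InNP`, `InFP`, `Join`, `Arith`, `QFalse`,
`QCon`, `QExp`, `PH`, `Few`, `TDP`) and `Lib_helper94/FSS/Defs.lean` (`KeepsTrapdoors`).
-/

set_option autoImplicit false

namespace Pool.Agent.Results.MP_5c38ab_lc.ThreeCasesByFewStringsSecure

open Pool.Agent.PX Pool.Agent.FSS

theorem result (R : Lang) (α : ℕ → ℕ) (hα : Filter.Tendsto α Filter.atTop Filter.atTop) :
    ((∃ W, Few α W ∧ (InfinitePH R → InfinitePH (join R W)) ∧ KeepsTrapdoors R (join R W) ∧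
        Q1False (join R W)) ∧
      (∃ W, Few α W ∧ (InfinitePH R → InfinitePH (join R W)) ∧ KeepsTrapdoors R (join R W) ∧
        BothTrueExp (join R W)) ∧
      ∃ W, Few α W ∧ (InfinitePH R → InfinitePH (join R W)) ∧ KeepsTrapdoors R (join R W) ∧
        Q1True (join R W) ∧ ConFalse (join R W)) ∧
    ∀ β : ℕ → ℕ, Filter.Tendsto β Filter.atTop Filter.atTop →
      ∃ O : Lang, InP O R ∧ InfinitePH O ∧ ∃ G F K, TrapdoorPermutations O G F K ∧
        ∀ k, Secure O G F (fun n => (2 ^ (n / β n) + n + 2) ^ k) := by
  refine ⟨?_, fun β hβ => ?_⟩
  · have h := Pool.Agent.FSS.three R α hα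
    simpa only [few_iff, infinitePH_iff, q1False_iff, bothTrueExp_iff, q1True_iff, conFalse_iff,
      join_eq] using h
  · obtain ⟨O, h1, h2, h3⟩ := exists_hard R β hβ
    exact ⟨O, (inP_iff O R).1 h1, (infinitePH_iff O).1 h2, h3⟩

end Pool.Agent.Results.MP_5c38ab_lc.ThreeCasesByFewStringsSecure
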